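import Pool.Agent.U899.QA.Rc

/-!
# K3 surfaces over `ℚ`: the points over real quadratic fields are dense in given components of the
set of the real points

Let `F` be a form of bidegree `(4, 4)` over `ℚ` such that the curve `F = 0` in `ℙ¹ × ℙ¹` is smooth, and
let `X : w² = F` be the corresponding K3 surface, a double cover of `ℙ¹ × ℙ¹`. Nothing is assumed about
the rational points of `X`; there may be none. The real points of `X` off the branch curve lie over the
region `F > 0`, with two points `(x, ±√F(x))` over each point `x` of the region (in an affine chart).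

(1) There are finitely many lines of the two rulings such that the following is true for all rational
points `z` of the chart which do not lie on these lines, and for all number fields `L` with a real
embedding in which `F(z) ≠ 0` is a square: ALL real points of `X` over the connected component of
the region `F > 0` which contains `z` are limits of `L`-points of `X`.

(2) Therefore, for all connected components `U` of the region `F > 0` in the chart, and all number
fields `N`, there is a real quadratic field `L`, not contained in `N`, such that ALL real points of `X`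
over `U` are limits of `L`-points of `X`. There are infinitely many such real quadratic fields, as `N`
is arbitrary.

In particular, the two sheets over `U`, and their closure in `X(ℝ)`, are contained in the closure of
`X(L)`. So the necessary condition at the real place which the question predicts (the closure of the
set of the rational points in the set of the real points is a union of connected components) is
satisfied for these components.

Proof. The points of `X` over `ℚ(√F(z))` which lie over rational points of the chart are the rational
points of a quadratic twist, which has a rational point over `z`. The set of the rational points of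
`w² = e F` is dense in all the connected real sets which meet it outside finitely many lines, which
do not depend on the twist (`Pool.Agent.U199.RS`). The value `F(z)` is not a square in `N` for suitable
rational points `z` near each given real point.
-/

set_option autoImplicit false

namespace Pool.Agent.Results.MP_ff4683_nt.RealComponentsQuadratic

open MvPolynomial

/-- `F` is a form of bidegree `(4, 4)` in the coordinates `(j, 0)`, `(j, 1)` of the two factors. -/
def IsForm {K : Type} [Field K] (F : MvPolynomial (Fin 2 × Fin 2) K) : Prop :=
  ∀ m ∈ F.support, ∀ j, m (j, 0) + m (j, 1) = 4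

/-- The curve `F = 0` in `ℙ¹ × ℙ¹` is smooth. -/
def Smooth {K : Type} [Field K] (F : MvPolynomial (Fin 2 × Fin 2) K) : Prop :=
  ∀ x : Fin 2 × Fin 2 → AlgebraicClosure K, (∀ j, ∃ b, x (j, b) ≠ 0) → ∃ p, aeval x (pderiv p F) ≠ 0

/-- The equation in the affine chart in which the coordinates `(j, ε j)` are equal to one. -/
noncomputable def chart {K : Type} [Field K] (F : MvPolynomial (Fin 2 × Fin 2) K)
    (ε : Fin 2 → Fin 2) : MvPolynomial (Fin 2) K :=
  aeval (fun p : Fin 2 × Fin 2 => if p.2 = ε p.1 then 1 else X p.1) F

/-- The connected component of the point `x` in the region `f > 0` of the real plane. -/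
def component (f : MvPolynomial (Fin 2) ℚ) (x : Fin 2 → ℝ) : Set (Fin 2 → ℝ) :=
  connectedComponentIn {y : Fin 2 → ℝ | (0 : ℝ) < aeval y f} x

/-- The closure, in the real space, of the set of the `L`-points of the surface `w² = f(x)`, with
respect to the real embedding `τ` of `L`. -/
def closurePoints (L : Type) [Field L] [NumberField L] (τ : L →+* ℝ) (f : MvPolynomial (Fin 2) ℚ) :
    Set ((Fin 2 → ℝ) × ℝ) :=
  closure {S | ∃ P : (Fin 2 → L) × L, P.2 ^ 2 = eval P.1 (map (algebraMap ℚ L) f) ∧
    S = ((fun j => τ (P.1 j)), τ P.2)}

/-- **The points over real quadratic fields of K3 double covers of `ℙ¹ × ℙ¹` are dense in the parts of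
the set of the real points over given components of the region `F > 0`.** -/
theorem result (F : MvPolynomial (Fin 2 × Fin 2) ℚ) (hF : IsForm F) (hs : Smooth F)
    (ε : Fin 2 → Fin 2) :
    -- (1) rational points of the chart outside finitely many lines
    (∃ A : Fin 2 → Set ℚ, (∀ j, (A j).Finite) ∧ ∀ z : Fin 2 → ℚ, (∀ j, z j ∉ A j) →
      ∀ (L : Type) [Field L] [NumberField L] (τ : L →+* ℝ) (r : L), r ≠ 0 →
        r ^ 2 = algebraMap ℚ L (eval z (chart F ε)) →
        ∀ (x : Fin 2 → ℝ) (w : ℝ), x ∈ component (chart F ε) (fun k => ((z k : ℚ) : ℝ)) →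
          w ^ 2 = aeval x (chart F ε) → (x, w) ∈ closurePoints L τ (chart F ε)) ∧
    -- (2) all components
    ∀ x₀ : Fin 2 → ℝ, (0 : ℝ) < aeval x₀ (chart F ε) → ∀ (N : Type) [Field N] [NumberField N],
      ∃ (L : Type) (_ : Field L) (_ : NumberField L) (τ : L →+* ℝ),
        Module.finrank ℚ L = 2 ∧ IsEmpty (L →+* N) ∧
        ∀ (x : Fin 2 → ℝ) (w : ℝ), x ∈ component (chart F ε) x₀ →
          w ^ 2 = aeval x (chart F ε) → (x, w) ∈ closurePoints L τ (chart F ε) := by
  obtain ⟨A, hA, h1⟩ := Pool.Agent.U899.QA.rc1 F hF hs ε
  have hopen : IsOpen {y : Fin 2 → ℝ | (0 : ℝ) < aeval y (chart F ε)} := by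
    have e : {y : Fin 2 → ℝ | (0 : ℝ) < aeval y (chart F ε)} =
        {y | 0 < eval y (map (algebraMap ℚ ℝ) (chart F ε))} := by
      ext y
      change (0 : ℝ) < aeval y (chart F ε) ↔ 0 < eval y (map (algebraMap ℚ ℝ) (chart F ε))
      rw [Pool.Agent.U899.QA.aeval_eq_eval_map]
    rw [e]
    exact isOpen_lt continuous_const (MvPolynomial.continuous_eval _)
  have hsub : ∀ (x₀ y : Fin 2 → ℝ), y ∈ component (chart F ε) x₀ → (0 : ℝ) < aeval y (chart F ε) :=
    fun x₀ y hy => connectedComponentIn_subset {y : Fin 2 → ℝ | (0 : ℝ) < aeval y (chart F ε)} x₀ hy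
  refine ⟨⟨A, hA, fun z hz L _ _ τ r hr0 hr x w hx hw => ?_⟩, fun x₀ hx₀ N _ _ => ?_⟩
  · have hz0 : (fun k => ((z k : ℚ) : ℝ)) ∈ {y : Fin 2 → ℝ | (0 : ℝ) < aeval y (chart F ε)} := by
      change (0 : ℝ) < aeval (fun k => ((z k : ℚ) : ℝ)) (chart F ε)
      rw [Pool.Agent.TH729.SQ.aeval_cast z (chart F ε)]
      have h2 : τ r ^ 2 = ((eval z (chart F ε) : ℚ) : ℝ) := by
        rw [← map_pow, hr]
        simp
      rw [← h2]
      exact (sq_pos_of_ne_zero ((map_ne_zero τ).2 hr0))
    exact h1 z hz _ isPreconnected_connectedComponentIn (mem_connectedComponentIn hz0)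
      (hsub _) L τ r hr x w hx hw
  · obtain ⟨L, iL, iN, τ, r, z, h2, h3, h4, h5, h6⟩ := Pool.Agent.U899.QA.rc2 F hF hs ε A hA
      (component (chart F ε) x₀) hopen.connectedComponentIn x₀ (mem_connectedComponentIn hx₀)
      (hsub _) N
    exact ⟨L, iL, iN, τ, h2, h3, fun x w hx hw => h1 z h4 _ isPreconnected_connectedComponentIn h5
      (hsub _) L τ r h6 x w hx hw⟩

end Pool.Agent.Results.MP_ff4683_nt.RealComponentsQuadratic
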