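import Pool.Agent.U899.QA.Uni2

/-!
# K3 surfaces: the closure of the rational points is open at almost all rational points, uniformly in
all extensions of bounded degree and all quadratic twists

Let `K` be a number field, let `F` be a form of bidegree `(4, 4)` over `K` such that the curve
`F = 0` in `ℙ¹ × ℙ¹` is smooth. For an extension `L` of `K` and `e ∈ Lˣ` let `X_e : w² = e F` be the
corresponding K3 surface over `L`, a double cover of `ℙ¹ × ℙ¹`.

We consider finite nonempty sets of `p`-adic places of degree one of `L` (embeddings of `L` into `ℚ_p`)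
over different primes `p`, with or without a real place; for `L = ℚ` these are all the finite sets of
places which contain a finite place.

For each `D` there are, in each affine chart, a finite set `T` of points of `ℙ¹ × ℙ¹` and finitely many
lines of the two rulings, over the algebraic closure of `K`, such that for ALL extensions `L` of `K` of
degree at most `D`, ALL `e ∈ Lˣ` and ALL these sets of places of `L` the closure of `X_e(L)` in the
product of the sets of local points is a neighbourhood of every `L`-point of `X_e` which does not lie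
on the branch curve, over `T` or over one of the lines.

The product of the sets of local points contains the projection of the set of the adelic points which
are orthogonal to the Brauer group; this projection is open, since the Brauer group of `X_e` modulo
the constant classes is finite. So the closure of `X_e(L)` should be open in the product at all
`L`-points. For one field `L = K`, with a set `T` and lines which depend on it, this is the theorem
`MP_ed3816_nt.OpenAtAlmostAllPoints`. Here the exceptional set is the same for all extensions of degree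
at most `D`; it only depends on `F` and `D`, and the lines do not depend on `D`: they are the lines on
which the curve of genus one degenerates, or on which the derivative of `F` is a multiple of `F`.
-/

set_option autoImplicit false

namespace Pool.Agent.Results.MP_ff4683_nt.UniformOpenness

open MvPolynomial

/-- `F` is a form of bidegree `(4, 4)` in the coordinates `(j, 0)`, `(j, 1)` of the two factors. -/
def IsForm {K : Type} [Field K] (F : MvPolynomial (Fin 2 × Fin 2) K) : Prop :=
  ∀ m ∈ F.support, ∀ j, m (j, 0) + m (j, 1) = 4

/-- The curve `F = 0` in `ℙ¹ × ℙ¹` is smooth. -/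
def Smooth {K : Type} [Field K] (F : MvPolynomial (Fin 2 × Fin 2) K) : Prop :=
  ∀ x : Fin 2 × Fin 2 → AlgebraicClosure K, (∀ j, ∃ b, x (j, b) ≠ 0) → ∃ p, aeval x (pderiv p F) ≠ 0

/-- The equation in the affine chart in which the coordinates `(j, ε j)` are equal to one. -/
noncomputable def chart {K : Type} [Field K] (F : MvPolynomial (Fin 2 × Fin 2) K)
    (ε : Fin 2 → Fin 2) : MvPolynomial (Fin 2) K :=
  aeval (fun p : Fin 2 × Fin 2 => if p.2 = ε p.1 then 1 else X p.1) F

/-- The point `(x, w)` lies on the double cover `w² = f(x)`. -/
def OnCover {F : Type} [Field F] (f : MvPolynomial (Fin 2) F) (P : (Fin 2 → F) × F) : Prop :=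
  P.2 ^ 2 = eval P.1 f

/-- The image of a point under an embedding of fields. -/
def image {K F : Type} [Field K] [Field F] (φ : K →+* F) (P : (Fin 2 → K) × K) : (Fin 2 → F) × F :=
  (fun j => φ (P.1 j), φ P.2)

/-- The closure of the `K`-points in the product of the sets of the `ℚ_[p i]`-points. -/
def Closure {K : Type} [Field K] (f : MvPolynomial (Fin 2) K) {ι : Type} {p : ι → ℕ}
    [∀ i, Fact (p i).Prime] (σ : ∀ i, K →+* ℚ_[p i]) : Set (∀ i, (Fin 2 → ℚ_[p i]) × ℚ_[p i]) :=
  closure {S | ∃ P, OnCover f P ∧ S = fun i => image (σ i) P}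

/-- The closure of the `K`-points in the product of the set of the real points and of the sets of
the `ℚ_[p i]`-points. -/
def ClosureReal {K : Type} [Field K] (f : MvPolynomial (Fin 2) K) {ι : Type} {p : ι → ℕ}
    [∀ i, Fact (p i).Prime] (σ : ∀ i, K →+* ℚ_[p i]) (τ : K →+* ℝ) :
    Set (((Fin 2 → ℝ) × ℝ) × ∀ i, (Fin 2 → ℚ_[p i]) × ℚ_[p i]) :=
  closure {S | ∃ P, OnCover f P ∧ S = (image τ P, fun i => image (σ i) P)}

/-- The closure is a neighbourhood of the `K`-point `P` in the product of the sets of the local
points. -/
def OpenAt {K : Type} [Field K] (f : MvPolynomial (Fin 2) K) {ι : Type} {p : ι → ℕ}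
    [∀ i, Fact (p i).Prime] (σ : ∀ i, K →+* ℚ_[p i]) (P : (Fin 2 → K) × K) : Prop :=
  ∃ U ∈ nhds (fun v => image (σ v) P), ∀ S ∈ U, (∀ v, OnCover (map (σ v) f) (S v)) →
    S ∈ Closure f σ

/-- The same with a real place. -/
def OpenAtReal {K : Type} [Field K] (f : MvPolynomial (Fin 2) K) {ι : Type} {p : ι → ℕ}
    [∀ i, Fact (p i).Prime] (σ : ∀ i, K →+* ℚ_[p i]) (τ : K →+* ℝ) (P : (Fin 2 → K) × K) : Prop :=
  ∃ U ∈ nhds (image τ P, fun v => image (σ v) P), ∀ S ∈ U, OnCover (map τ f) S.1 →
    (∀ v, OnCover (map (σ v) f) (S.2 v)) → S ∈ ClosureReal f σ τ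

/-- **The closure of the set of the rational points of K3 double covers of `ℙ¹ × ℙ¹` is open at almost
all rational points, uniformly in the extensions of bounded degree.** -/
theorem result (K : Type) [Field K] [NumberField K] (F : MvPolynomial (Fin 2 × Fin 2) K)
    (hF : IsForm F) (hs : Smooth F) (ε : Fin 2 → Fin 2) :
    -- the lines
    ∃ E : Fin 2 → Set (AlgebraicClosure K), (∀ j, (E j).Finite) ∧
      -- the degree and the finite set
      ∀ D : ℕ, ∃ T : Set (Fin 2 → AlgebraicClosure K), T.Finite ∧
      -- all extensions of degree at most `D` and all quadratic twists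
      ∀ (L : Type) [Field L] [NumberField L] [Algebra K L], Module.finrank K L ≤ D →
      ∀ e : L, e ≠ 0 →
        -- all points off the branch curve, `T` and the lines
        ∀ (z : Fin 2 → L) (w : L), w ≠ 0 →
        OnCover (C e * map (algebraMap K L) (chart F ε)) (z, w) →
        ∀ φ : L →ₐ[K] AlgebraicClosure K, (fun j => φ (z j)) ∉ T → (∀ j, φ (z j) ∉ E j) →
        -- all finite sets of places
        ∀ (ι : Type) [Finite ι] [Nonempty ι] (p : ι → ℕ) [∀ v, Fact (p v).Prime],
          Function.Injective p → ∀ σ : ∀ v, L →+* ℚ_[p v],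
            OpenAt (C e * map (algebraMap K L) (chart F ε)) σ (z, w) ∧
            ∀ τ : L →+* ℝ, OpenAtReal (C e * map (algebraMap K L) (chart F ε)) σ τ (z, w) := by
  obtain ⟨h1, h2, -⟩ := Pool.Agent.Q182.TT.CHF.chf K 2 F hF ε
  obtain ⟨E, hE, h⟩ := Pool.Agent.U899.QA.uopn' K (Pool.Agent.Q35.TT.ch F ε) h1 (h2 hs)
  refine ⟨E, hE, fun D => ?_⟩
  obtain ⟨T, hT, h⟩ := h D
  exact ⟨T, hT, fun L _ _ _ hL e he z w hw hon φ hzT hzE => h L hL e he φ z w hw hon hzT hzE⟩

end Pool.Agent.Results.MP_ff4683_nt.UniformOpenness
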